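import Pool.Agent.helper11.CFL.Spec

set_option linter.all false

/-!
# Row cf:VO : the shortest vector of a coset has small electrical flow
-/

namespace Pool.Agent.helper98.CFL

open Finset Matrix Pool.Agent.helper11.CFL

section

variable {V E : Type} [Fintype V] [DecidableEq V] [Fintype E]

/-- the incidence vector as an integer vector -/
def incZ (src tgt : E → V) (e : E) (v : V) : ℤ :=
  (if src e = v then 1 else 0) - (if tgt e = v then 1 else 0)

theorem incZ_cast (src tgt : E → V) (e : E) (v : V) :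
    ((incZ src tgt e v : ℤ) : ℝ) = inc src tgt e v := by
  unfold incZ inc
  push_cast
  rfl

theorem incZ_sum (src tgt : E → V) (e : E) : ∑ v, incZ src tgt e v = 0 := by
  unfold incZ
  rw [Finset.sum_sub_distrib]
  simp

theorem inc_sum (src tgt : E → V) (e : E) : ∑ v, inc src tgt e v = 0 := by
  unfold inc
  rw [Finset.sum_sub_distrib]
  simp

theorem Mat_symm (src tgt : E → V) (c : E → ℝ) (u v : V) :
    Mat src tgt c u v = Mat src tgt c v u := by
  unfold Mat
  congr 1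
  refine Finset.sum_congr rfl fun e _ => by ring

/-- `Mat c *ᵥ y` is the divergence of the electrical flow of `y` plus the sum of `y` -/
theorem Mat_mulVec (src tgt : E → V) (c : E → ℝ) (y : V → ℝ) (u : V) :
    (Mat src tgt c *ᵥ y) u =
      ∑ e, (c e * (inc src tgt e ⬝ᵥ y)) * inc src tgt e u + ∑ v, y v := by
  simp only [Matrix.mulVec, dotProduct, Mat]
  have h1 : ∀ v, (∑ e, c e * inc src tgt e u * inc src tgt e v + 1) * y v =
      ∑ e, c e * inc src tgt e u * inc src tgt e v * y v + y v := by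
    intro v
    rw [add_mul, Finset.sum_mul, one_mul]
  simp_rw [h1]
  rw [Finset.sum_add_distrib]
  congr 1
  rw [Finset.sum_comm]
  refine Finset.sum_congr rfl fun e _ => ?_
  rw [Finset.mul_sum, Finset.sum_mul]
  refine Finset.sum_congr rfl fun v _ => by ring

end

/-- Cauchy–Schwarz for a positive definite real matrix. -/
theorem cs_posDef {V : Type} [Fintype V] [DecidableEq V] (M : Matrix V V ℝ) (hM : M.PosDef)
    (x y : V → ℝ) : (x ⬝ᵥ (M *ᵥ y)) ^ 2 ≤ (x ⬝ᵥ (M *ᵥ x)) * (y ⬝ᵥ (M *ᵥ y)) := by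
  have hs : y ⬝ᵥ (M *ᵥ x) = x ⬝ᵥ (M *ᵥ y) := by
    have hT : Mᵀ = M := by
      have := hM.isHermitian
      rw [Matrix.IsHermitian, Matrix.conjTranspose_eq_transpose_of_trivial] at this
      exact this
    calc y ⬝ᵥ (M *ᵥ x) = (y ᵥ* M) ⬝ᵥ x := by rw [Matrix.dotProduct_mulVec]
      _ = (Mᵀ *ᵥ y) ⬝ᵥ x := by rw [Matrix.mulVec_transpose]
      _ = x ⬝ᵥ (M *ᵥ y) := by rw [hT, dotProduct_comm]
  have hnn : ∀ z : V → ℝ, 0 ≤ z ⬝ᵥ (M *ᵥ z) := by
    intro z
    have := hM.posSemidef.dotProduct_mulVec_nonneg z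
    simpa using this
  have h : ∀ s : ℝ, 0 ≤ (y ⬝ᵥ (M *ᵥ y)) * (s * s) + (2 * (x ⬝ᵥ (M *ᵥ y))) * s +
      (x ⬝ᵥ (M *ᵥ x)) := by
    intro s
    have h1 := hnn (x + s • y)
    rw [Matrix.mulVec_add, Matrix.mulVec_smul, add_dotProduct, dotProduct_add, dotProduct_add,
      smul_dotProduct, smul_dotProduct, dotProduct_smul, dotProduct_smul, hs] at h1
    simp only [smul_eq_mul] at h1
    nlinarith [h1]
  have hd := discrim_le_zero h
  rw [discrim] at hd
  nlinarith [hd]

theorem VO : VO_stmt := by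
  intro V E _ _ _ _ _ src tgt c hc hM β hβ
  classical
  set M : Matrix V V ℝ := Mat src tgt c with hMdef
  set N : Matrix V V ℝ := M⁻¹ with hN
  have hu : IsUnit M.det := by
    have := hM.det_pos
    exact isUnit_iff_ne_zero.2 this.ne'
  have hMN : ∀ t : V → ℝ, M *ᵥ (N *ᵥ t) = t := by
    intro t
    rw [Matrix.mulVec_mulVec, hN, Matrix.mul_nonsing_inv _ hu, Matrix.one_mulVec]
  have hNM : ∀ t : V → ℝ, N *ᵥ (M *ᵥ t) = t := by
    intro t
    rw [Matrix.mulVec_mulVec, hN, Matrix.nonsing_inv_mul _ hu, Matrix.one_mulVec]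
  have hMT : Mᵀ = M := by
    ext u v
    rw [Matrix.transpose_apply, hMdef]
    exact Mat_symm _ _ _ _ _
  have hNT : Nᵀ = N := by
    rw [hN, Matrix.transpose_nonsing_inv, hMT]
  have hNs : ∀ x y : V → ℝ, x ⬝ᵥ (N *ᵥ y) = y ⬝ᵥ (N *ᵥ x) := by
    intro x y
    calc x ⬝ᵥ (N *ᵥ y) = (x ᵥ* N) ⬝ᵥ y := by rw [Matrix.dotProduct_mulVec]
      _ = (Nᵀ *ᵥ x) ⬝ᵥ y := by rw [Matrix.mulVec_transpose]
      _ = y ⬝ᵥ (N *ᵥ x) := by rw [hNT, dotProduct_comm]
  -- the quadratic form
  let q : (V → ℝ) → ℝ := fun t => t ⬝ᵥ (N *ᵥ t)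
  have hq : ∀ t, q t = (N *ᵥ t) ⬝ᵥ (M *ᵥ (N *ᵥ t)) := by
    intro t
    show t ⬝ᵥ (N *ᵥ t) = _
    rw [hMN, dotProduct_comm]
  -- coordinates are bounded by the form
  have hb : ∀ (t : V → ℝ) (v : V), (t v) ^ 2 ≤ M v v * q t := by
    intro t v
    have h := cs_posDef M hM (Pi.single v 1) (N *ᵥ t)
    rw [hMN t] at h
    rw [hq t, hMN t]
    have e1 : (Pi.single v 1 : V → ℝ) ⬝ᵥ t = t v := by simp
    have e2 : (Pi.single v 1 : V → ℝ) ⬝ᵥ (M *ᵥ (Pi.single v 1 : V → ℝ)) = M v v := by simp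
    rw [e1, e2] at h
    exact h
  -- the candidates
  let tz : (V → ℤ) → V → ℝ := fun z v => β v + 2 * (z v : ℝ)
  let S : Set (V → ℤ) := {z | ∑ v, z v = 0 ∧ q (tz z) ≤ q (tz 0)}
  have hSfin : S.Finite := by
    -- a bound for all coordinates
    let K : ℝ := ∑ v, (M v v * q (tz 0) + |β v|)
    have hK0 : ∀ v, 0 ≤ M v v * q (tz 0) := fun v => le_trans (sq_nonneg _) (hb (tz 0) v)
    have hcoord : ∀ z ∈ S, ∀ v, |(z v : ℝ)| ≤ K + 1 := by
      intro z hz v
      have h1 : (tz z v) ^ 2 ≤ M v v * q (tz z) := hb _ _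
      have hMv : 0 ≤ M v v := by
        have h := hM.posSemidef.dotProduct_mulVec_nonneg (Pi.single v (1 : ℝ))
        simpa using h
      have h2 : M v v * q (tz z) ≤ M v v * q (tz 0) := mul_le_mul_of_nonneg_left hz.2 hMv
      have h3 : |tz z v| ≤ M v v * q (tz 0) + 1 := by
        have h4 : |tz z v| ^ 2 ≤ M v v * q (tz 0) := by rw [sq_abs]; linarith
        nlinarith [abs_nonneg (tz z v), hK0 v, sq_nonneg (|tz z v| - 1)]
      have h5 : M v v * q (tz 0) + |β v| ≤ K :=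
        Finset.single_le_sum (f := fun v => M v v * q (tz 0) + |β v|)
          (fun u _ => add_nonneg (hK0 u) (abs_nonneg _)) (Finset.mem_univ v)
      have h6 : (2 : ℝ) * |(z v : ℝ)| ≤ |tz z v| + |β v| := by
        have : 2 * (z v : ℝ) = tz z v - β v := by
          show _ = β v + 2 * (z v : ℝ) - β v
          ring
        calc (2 : ℝ) * |(z v : ℝ)| = |2 * (z v : ℝ)| := by rw [abs_mul]; norm_num
          _ = |tz z v - β v| := by rw [this]
          _ ≤ |tz z v| + |β v| := abs_sub _ _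
      nlinarith [abs_nonneg (z v : ℝ), abs_nonneg (β v)]
    obtain ⟨B, hB⟩ := exists_nat_gt (K + 1)
    apply Set.Finite.subset (Set.Finite.pi' (fun _ : V => (Set.finite_Icc (-(B : ℤ)) (B : ℤ))))
    intro z hz
    rw [Set.mem_setOf_eq]
    intro v
    have h := hcoord z hz v
    have h' : |(z v : ℝ)| ≤ (B : ℝ) := by linarith
    rw [abs_le] at h'
    constructor
    · have := h'.1
      exact_mod_cast this
    · have := h'.2
      exact_mod_cast this
  have hSne : S.Nonempty := ⟨0, by simp [S], le_refl _⟩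
  obtain ⟨z, hzS, hzmin⟩ := Set.exists_min_image S (fun z => q (tz z)) hSfin hSne
  have hmin : ∀ z' : V → ℤ, ∑ v, z' v = 0 → q (tz z) ≤ q (tz z') := by
    intro z' hz'
    by_cases h : q (tz z') ≤ q (tz 0)
    · exact hzmin z' ⟨hz', h⟩
    · exact le_trans hzS.2 (le_of_lt (not_le.1 h))
  -- the potential
  let t : V → ℝ := tz z
  let y : V → ℝ := N *ᵥ t
  have htsum : ∑ v, t v = 0 := by
    show ∑ v, (β v + 2 * (z v : ℝ)) = 0
    rw [Finset.sum_add_distrib, hβ, ← Finset.mul_sum]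
    have : (∑ v, (z v : ℝ)) = ((∑ v, z v : ℤ) : ℝ) := by push_cast; rfl
    rw [this, hzS.1]
    simp
  -- the sum of the potential vanishes
  have hysum : ∑ v, y v = 0 := by
    have h1 : ∀ u, t u = (M *ᵥ y) u := fun u => by
      show t u = (M *ᵥ (N *ᵥ t)) u
      rw [hMN]
    have h2 : ∑ u, (M *ᵥ y) u = (Fintype.card V : ℝ) * ∑ v, y v := by
      simp_rw [hMdef, Mat_mulVec]
      rw [Finset.sum_add_distrib, Finset.sum_comm]
      have h3 : ∀ e, ∑ u, c e * (inc src tgt e ⬝ᵥ y) * inc src tgt e u = 0 := by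
        intro e
        rw [← Finset.mul_sum, inc_sum, mul_zero]
      simp_rw [h3]
      simp
    have h4 : (Fintype.card V : ℝ) * ∑ v, y v = 0 := by
      rw [← h2, ← htsum]
      exact Finset.sum_congr rfl fun u _ => (h1 u).symm
    have h5 : (Fintype.card V : ℝ) ≠ 0 := by
      exact_mod_cast Fintype.card_ne_zero
    exact (mul_eq_zero.1 h4).resolve_left h5
  refine ⟨z, fun e => c e * (inc src tgt e ⬝ᵥ y), hzS.1, ?_, ?_⟩
  · intro v
    have h := Mat_mulVec src tgt c y v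
    rw [hysum, add_zero] at h
    show ∑ e, c e * (inc src tgt e ⬝ᵥ y) * inc src tgt e v = β v + 2 * (z v : ℝ)
    rw [← h]
    have h1 : (M *ᵥ y) v = t v := by
      show (M *ᵥ (N *ᵥ t)) v = t v
      rw [hMN]
    exact h1
  · intro e
    set a : V → ℝ := inc src tgt e with ha
    have hexp : ∀ s : ℝ, q (t + s • a) = q t + 2 * s * (a ⬝ᵥ y) + s ^ 2 * (a ⬝ᵥ (N *ᵥ a)) := by
      intro s
      show (t + s • a) ⬝ᵥ (N *ᵥ (t + s • a)) = t ⬝ᵥ (N *ᵥ t) + _ + _
      rw [Matrix.mulVec_add, Matrix.mulVec_smul, add_dotProduct, dotProduct_add, dotProduct_add,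
        smul_dotProduct, smul_dotProduct, dotProduct_smul, dotProduct_smul]
      simp only [smul_eq_mul]
      rw [hNs t a]
      ring
    have hcmp : ∀ k : ℤ, q t ≤ q (t + (2 * (k : ℝ)) • a) := by
      intro k
      have h := hmin (fun v => z v + k * incZ src tgt e v) (by
        rw [Finset.sum_add_distrib, hzS.1, ← Finset.mul_sum, incZ_sum]
        simp)
      have h1 : tz (fun v => z v + k * incZ src tgt e v) = t + (2 * (k : ℝ)) • a := by
        funext v
        show β v + 2 * ((z v + k * incZ src tgt e v : ℤ) : ℝ) = (β v + 2 * (z v : ℝ)) +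
          (2 * (k : ℝ)) * a v
        push_cast
        rw [incZ_cast]
        ring
      rw [h1] at h
      exact h
    have hp := hcmp 1
    have hm := hcmp (-1)
    rw [hexp] at hp hm
    push_cast at hp hm
    have habs : |a ⬝ᵥ y| ≤ a ⬝ᵥ (N *ᵥ a) := by
      rw [abs_le]
      constructor <;> nlinarith
    show |c e * (a ⬝ᵥ y)| ≤ lev src tgt c e
    rw [abs_mul, abs_of_pos (hc e)]
    exact mul_le_mul_of_nonneg_left habs (hc e).le

end Pool.Agent.helper98.CFL
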